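import Mathlib
import Pool.Agent.P.MP_38bfeb_an.Main

/-!
Positive answer to Q1: for every `T > 0` and `x₀` the bad Boussinesq equation has a Schwartz class
solution on `ℝ × [0,T)` with `|u(x₀,t)|` comparable to `(T - t)^(-1)` as `t → T`.
-/

namespace Pool.Agent.Results.MP_38bfeb_an.RateOne

open scoped ContDiff

/-- The mixed derivative `∂_x^i ∂_t^j u` at `(x, t)`; time derivatives are taken within `[0,T)`,
so they are one-sided at `t = 0`. -/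
noncomputable def D (T : ℝ) (u : ℝ → ℝ → ℝ) (i j : ℕ) (x t : ℝ) : ℝ :=
  iteratedDeriv i (fun y => iteratedDerivWithin j (fun s => u y s) (Set.Ico 0 T) t) x

/-- Schwartz class solution of `u_tt = u_xx + (u^2)_xx + u_xxxx` on `ℝ × [0,T)`. -/
def IsSolution (T : ℝ) (u : ℝ → ℝ → ℝ) : Prop :=
  ContDiffOn ℝ ∞ (fun p : ℝ × ℝ => u p.1 p.2) (Set.univ ×ˢ Set.Ico 0 T) ∧
  (∀ x : ℝ, ∀ t ∈ Set.Ico 0 T,
    D T u 0 2 x t = D T u 2 0 x t + D T (fun y s => u y s ^ 2) 2 0 x t + D T u 4 0 x t) ∧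
  ∀ N : ℕ, 1 ≤ N → ∀ τ ∈ Set.Ico 0 T, ∃ C : ℝ, ∀ x : ℝ, ∀ t ∈ Set.Icc 0 τ,
    ∑ i ∈ Finset.range (N + 1), (1 + |x|) ^ N * |D T u i 0 x t| ≤ C

open Set Filter Pool.Agent.P.MP_0afb51_an Pool.Agent.P.MP_38bfeb_an in
theorem result (T : ℝ) (hT : 0 < T) (x₀ : ℝ) :
    ∃ u : ℝ → ℝ → ℝ, IsSolution T u ∧
      ∃ T₀ ∈ Set.Ioo 0 T, ∃ c₁ c₂ : ℝ, 0 < c₁ ∧ 0 < c₂ ∧ ∀ t ∈ Set.Ico T₀ T,
        c₁ * (T - t) ^ (-1 : ℝ) ≤ |u x₀ t| ∧ |u x₀ t| ≤ c₂ * (T - t) ^ (-1 : ℝ) := by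
  obtain ⟨u, v, p, hc, hre, hdec, τ₀, c₁, c₂, hτ₀, hc₁, hc₂, hrate⟩ :=
    exists_solutionR (L := T + 1) x₀ (by linarith)
  have hmem : ∀ t ∈ Ico 0 T, T - t ∈ Ioo 0 (T + 1) := fun t ht =>
    ⟨by linarith [ht.2], by linarith [ht.1]⟩
  have hO : IsOpen ((univ : Set ℝ) ×ˢ Ioo (0 : ℝ) (T + 1)) := isOpen_univ.prod isOpen_Ioo
  have hsm : ∀ x, ∀ t ∈ Ico 0 T,
      ContDiffAt ℝ ∞ (fun z : ℝ × ℝ => (u 0 (z.1, T - z.2)).re) (x, t) := by
    intro x t ht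
    have h1 : ContDiffAt ℝ ∞ (u 0) (x, T - t) :=
      (hc.contDiffOn (u_mem (v := v) (le_refl 0))).contDiffAt
        (hO.mem_nhds ⟨mem_univ _, hmem t ht⟩)
    have h2 : ContDiffAt ℝ ∞ (fun z : ℝ × ℝ => (z.1, T - z.2)) (x, t) := by fun_prop
    exact Complex.reCLM.contDiff.contDiffAt.comp (x, t) (ContDiffAt.comp (x, t) h1 h2)
  have hDx : ∀ i x, ∀ t ∈ Ico 0 T,
      D T (fun x t => (u 0 (x, T - t)).re) i 0 x t = (u i (x, T - t)).re := by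
    intro i x t ht
    rw [← hc.iter_u i x (hmem t ht)]
    simp only [D, iteratedDerivWithin_zero]
  have hDt : ∀ x, ∀ t ∈ Ico 0 T, D T (fun x t => (u 0 (x, T - t)).re) 0 2 x t =
      iteratedDeriv 2 (fun s => (u 0 (x, s)).re) (T - t) := by
    intro x t ht
    have h1 : ContDiffAt ℝ (2 : ℕ) (fun s : ℝ => (u 0 (x, T - s)).re) t := by
      have h2 : ContDiffAt ℝ ∞ (fun s : ℝ => (x, s)) t := by fun_prop
      exact (ContDiffAt.comp t (hsm x t ht) h2).of_le (ENat.LEInfty.out)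
    rw [D, iteratedDeriv_zero,
      iteratedDerivWithin_eq_iteratedDeriv (uniqueDiffOn_Ico 0 T) h1 ht,
      iteratedDeriv_comp_const_sub 2 (fun s => (u 0 (x, s)).re) T]
    simp
  refine ⟨fun x t => (u 0 (x, T - t)).re, ⟨fun z hz => (hsm z.1 z.2 hz.2).contDiffWithinAt,
    fun x t ht => ?_, fun N _ τ hτ => ?_⟩, max (T / 2) (T - τ₀),
    ⟨lt_max_of_lt_left (half_pos hT), max_lt (half_lt_self hT) (by linarith)⟩, c₁, c₂, hc₁, hc₂,
    fun t ht => ?_⟩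
  · have h1 : D T (fun y s => (u 0 (y, T - s)).re ^ 2) 2 0 x t = (p 2 (x, T - t)).re := by
      rw [← hc.iter_p 2 x (hmem t ht)]
      unfold D
      congr 1
      funext y
      rw [iteratedDerivWithin_zero, hc.p0 y _ (hmem t ht), Complex.mul_re, hre y _ (hmem t ht)]
      ring
    rw [h1, hDx 2 x t ht, hDx 4 x t ht, hDt x t ht, hc.iter_tt x (hmem t ht)]
    ring
  · choose C hC using fun i => hdec _ (sub_pos.2 hτ.2) i N
    refine ⟨∑ i ∈ Finset.range (N + 1), C i, fun x t ht => Finset.sum_le_sum fun i _ => ?_⟩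
    have ht' : t ∈ Ico 0 T := ⟨ht.1, ht.2.trans_lt hτ.2⟩
    rw [hDx i x t ht']
    refine le_trans ?_ (hC i x (T - t) ⟨by linarith [ht.2], by linarith [ht.1]⟩)
    gcongr
    exact Complex.abs_re_le_norm _
  · have h1 := hrate (T - t) ⟨sub_pos.2 ht.2, by linarith [(le_max_right _ _).trans ht.1]⟩
    rw [Real.rpow_neg_one, ← div_eq_mul_inv, ← div_eq_mul_inv]
    exact h1

end Pool.Agent.Results.MP_38bfeb_an.RateOne
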